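import Pool.Agent.Lib_helper5.HT.SM3

/-! Block SM3, second part: sum over the labels and over the heavy sets -/

set_option autoImplicit false

open Finset Matrix Filter Topology

namespace Pool.Agent.HT

open Classical in
/-- labellings of the light vertices, normalised to be `0` on `H` -/
noncomputable def sm3_G {n : ℕ} (q : ℕ) [NeZero q] (H : Finset (Fin n)) :
    Finset (Fin n → ZMod q) :=
  Fintype.piFinset (fun x => if x ∈ H then {0} else Finset.univ)

open Classical in
theorem sm3_G_sum {n : ℕ} (hn : 1 ≤ n) (q : ℕ) [NeZero q] (H : Finset (Fin n)) (k' : ℝ)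
    (hk : 0 < k') : ∑ g ∈ sm3_G q H, sm3_w H k' g ≤ ((n : ℝ) + 1) ^ q * (1 + q * k') ^ n := by
  have hn0 : (0 : ℝ) < n := by exact_mod_cast hn
  set T : Finset (ZMod q → Fin (n + 1)) :=
    Finset.univ.filter (fun a => ∑ c, (a c : ℕ) ≤ n) with hT
  have h1 : ∀ g ∈ sm3_G q H, sm3_w H k' g ≤
      ∑ a ∈ T, ∏ x, (if x ∈ H then (1 : ℝ) else ((a (g x) : ℕ) : ℝ) / n + k') := by
    intro g _
    set ag : ZMod q → Fin (n + 1) := fun c =>
      ⟨cnt (fun y => y ∉ H ∧ g y = c), Nat.lt_succ_of_le (sm4_cnt_le _)⟩ with hag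
    have hagT : ag ∈ T := by
      rw [hT, Finset.mem_filter]
      refine ⟨Finset.mem_univ _, ?_⟩
      have : ∑ c, cnt (fun y => y ∉ H ∧ g y = c) ≤ n := by
        unfold cnt
        have h2 : ∑ c : ZMod q, (Finset.univ.filter (fun y => y ∉ H ∧ g y = c)).card =
            (Finset.univ.filter (fun y => y ∉ H)).card := by
          rw [Finset.card_eq_sum_card_fiberwise (f := g) (t := Finset.univ)
            (fun x _ => Finset.mem_univ _)]
          refine Finset.sum_congr rfl fun c _ => ?_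
          rw [Finset.filter_filter]
        have h3 : (Finset.univ.filter (fun y : Fin n => y ∉ H)).card ≤ n := by
          refine (Finset.card_le_univ _).trans ?_
          simp
        convert h2.trans_le h3
      exact this
    have hnn : ∀ a ∈ T, (0 : ℝ) ≤
        ∏ x, (if x ∈ H then (1 : ℝ) else ((a (g x) : ℕ) : ℝ) / n + k') := by
      intro a _
      apply Finset.prod_nonneg
      intro x _
      split_ifs
      · norm_num
      · positivity
    refine le_trans (le_of_eq ?_) (Finset.single_le_sum hnn hagT)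
    unfold sm3_w
    rw [← Finset.prod_subset (Finset.subset_univ Hᶜ)]
    · refine Finset.prod_congr rfl fun x hx => ?_
      rw [if_neg (Finset.mem_compl.1 hx)]
    · intro x _ hx
      rw [Finset.mem_compl, not_not] at hx
      rw [if_pos hx]
  refine (Finset.sum_le_sum h1).trans ?_
  rw [Finset.sum_comm]
  have h4 : ∀ a ∈ T, ∑ g ∈ sm3_G q H,
      ∏ x, (if x ∈ H then (1 : ℝ) else ((a (g x) : ℕ) : ℝ) / n + k') ≤ (1 + q * k') ^ n := by
    intro a ha
    rw [hT, Finset.mem_filter] at ha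
    have h5 := Finset.prod_univ_sum (R := ℝ)
      (fun x : Fin n => if x ∈ H then ({0} : Finset (ZMod q)) else Finset.univ)
      (fun x c => if x ∈ H then (1 : ℝ) else ((a c : ℕ) : ℝ) / n + k')
    unfold sm3_G
    rw [← h5]
    have h6 : ∀ x : Fin n, (∑ c ∈ (if x ∈ H then ({0} : Finset (ZMod q)) else Finset.univ),
        (if x ∈ H then (1 : ℝ) else ((a c : ℕ) : ℝ) / n + k')) ≤ 1 + q * k' := by
      intro x
      have hq : (0 : ℝ) ≤ q * k' := by positivity
      by_cases hx : x ∈ H
      · simp only [hx, if_true, Finset.sum_singleton]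
        linarith
      · simp only [hx, if_false]
        rw [Finset.sum_add_distrib, Finset.sum_const, Finset.card_univ, ZMod.card,
          nsmul_eq_mul, ← Finset.sum_div]
        have : (∑ c, ((a c : ℕ) : ℝ)) / n ≤ 1 := by
          rw [div_le_one hn0]
          exact_mod_cast ha.2
        linarith
    calc _ ≤ ∏ x : Fin n, (1 + q * k') := by
          apply Finset.prod_le_prod
          · intro x _
            apply Finset.sum_nonneg
            intro c _
            split_ifs
            · norm_num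
            · positivity
          · intro x _
            exact h6 x
      _ = (1 + q * k') ^ n := by
          rw [Finset.prod_const, Finset.card_univ, Fintype.card_fin]
  refine (Finset.sum_le_sum h4).trans ?_
  rw [Finset.sum_const, nsmul_eq_mul]
  have h7 : (T.card : ℝ) ≤ ((n : ℝ) + 1) ^ q := by
    have : T.card ≤ (n + 1) ^ q := by
      refine (Finset.card_le_univ _).trans ?_
      rw [Fintype.card_fun, Fintype.card_fin, ZMod.card]
    exact_mod_cast this
  gcongr

open Classical in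
/-- normalised families of labellings -/
noncomputable def sm3_L {n : ℕ} (q : ℕ) [NeZero q] (H : Finset (Fin n)) :
    Finset (Fin n → Fin n → ZMod q) :=
  Fintype.piFinset (fun v => if v ∈ H then sm3_G q H else {fun _ => 0})

open Classical in
theorem sm3_L_sum {n : ℕ} (hn : 1 ≤ n) (q : ℕ) [NeZero q] (H : Finset (Fin n)) (k' : ℝ)
    (hk : 0 < k') (A : ℝ) (hA : 0 ≤ A) : ∑ lab ∈ sm3_L q H, ∏ v ∈ H, (A * sm3_w H k' (lab v)) ≤
      (A * (((n : ℝ) + 1) ^ q * (1 + q * k') ^ n)) ^ H.card := by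
  have h1 : ∀ lab : Fin n → Fin n → ZMod q, ∏ v ∈ H, (A * sm3_w H k' (lab v)) =
      ∏ v, (if v ∈ H then A * sm3_w H k' (lab v) else 1) := by
    intro lab
    rw [← Finset.prod_subset (Finset.subset_univ H)]
    · refine Finset.prod_congr rfl fun x hx => ?_
      rw [if_pos hx]
    · intro x _ hx
      rw [if_neg hx]
  rw [Finset.sum_congr rfl fun lab _ => h1 lab]
  have h5 := Finset.prod_univ_sum (R := ℝ)
    (fun v : Fin n => if v ∈ H then sm3_G q H else {fun _ => 0})
    (fun v g => if v ∈ H then A * sm3_w H k' g else 1)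
  unfold sm3_L
  rw [← h5]
  have h6 : ∀ v : Fin n, (∑ g ∈ (if v ∈ H then sm3_G q H else {fun _ => (0 : ZMod q)}),
      (if v ∈ H then A * sm3_w H k' g else 1)) ≤
      (if v ∈ H then A * (((n : ℝ) + 1) ^ q * (1 + q * k') ^ n) else 1) := by
    intro v
    by_cases hv : v ∈ H
    · simp only [hv, if_true]
      rw [← Finset.mul_sum]
      exact mul_le_mul_of_nonneg_left (sm3_G_sum hn q H k' hk) hA
    · simp [hv]
  refine (Finset.prod_le_prod ?_ fun v _ => h6 v).trans ?_
  · intro v _
    apply Finset.sum_nonneg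
    intro g _
    split_ifs
    · exact mul_nonneg hA (sm3_w_nonneg H k' hk g)
    · norm_num
  · rw [Finset.prod_ite_mem, Finset.univ_inter, Finset.prod_const]

/-- truncation of the labels -/
theorem sm3_YY_congr {n : ℕ} {L : Type} (H : Finset (Fin n)) (lab lab' : Fin n → Fin n → L)
    (h : ∀ v ∈ H, ∀ x ∉ H, lab v x = lab' v x) (F : Finset (E n)) (t : Tri n) :
    YY H lab F t ↔ YY H lab' F t := by
  have h1 : ∀ a b c : Fin n, Y1 H lab F a b c ↔ Y1 H lab' F a b c := by
    intro a b c
    unfold Y1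
    constructor
    · rintro ⟨h1, h2, h3, h4, h5⟩
      refine ⟨h1, h2, h3, h4, ?_⟩
      rw [← h a h1 b h2, ← h a h1 c h3]
      exact h5
    · rintro ⟨h1, h2, h3, h4, h5⟩
      refine ⟨h1, h2, h3, h4, ?_⟩
      rw [h a h1 b h2, h a h1 c h3]
      exact h5
  unfold YY
  rw [h1, h1, h1]

theorem sm3_cfg_congr {n : ℕ} (q : ℕ) (ε0 : ℝ) (H : Finset (Fin n))
    (lab lab' : Fin n → Fin n → ZMod q)
    (h : ∀ v ∈ H, ∀ x ∉ H, lab v x = lab' v x) (F : Finset (E n))
    (hc : HeavyCfg q ε0 H lab F) : HeavyCfg q ε0 H lab' F := by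
  obtain ⟨h1, h2, h3, h4⟩ := hc
  refine ⟨h1, h2, ?_, h4⟩
  intro v hv c
  have : (fun x => x ∉ H ∧ lab' v x = c) = (fun x => x ∉ H ∧ lab v x = c) := by
    ext x
    constructor
    · rintro ⟨a, b⟩
      exact ⟨a, by rw [h v hv x a]; exact b⟩
    · rintro ⟨a, b⟩
      exact ⟨a, by rw [← h v hv x a]; exact b⟩
  rw [this]
  exact h3 v hv c

open Classical in
/-- the final inequality for one `n` -/
theorem sm3_n (n : ℕ) (q : ℕ) [NeZero q] (hn : 10000 ≤ n) (ε0 k' : ℝ) (h0 : 0 < ε0)
    (h0' : ε0 ≤ 1 / 20000) (hk : 0 < k') :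
    mass (fun τ : E' n → Tri n => ∃ (H : Finset (Fin n)) (lab : Fin n → Fin n → ZMod q)
      (F : Finset (E n)), HeavyCfg q ε0 H lab F ∧ ∀ i, ¬ YY H lab F (τ i)) ≤
      20 * Z n * ((1 + (Real.exp (-(n / 100)) * Real.exp (22 * ε0 * n / k')) *
        (((n : ℝ) + 1) ^ q * (1 + q * k') ^ n)) ^ n - 1) := by
  have hn1 : 1 ≤ n := by omega
  have hZ := sm4_Z_nonneg n
  set s : Finset (Finset (Fin n) × (Fin n → Fin n → ZMod q) × Finset (E n)) :=
    Finset.univ.filter (fun p => p.1.Nonempty ∧ p.2.1 ∈ sm3_L q p.1 ∧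
      HeavyCfg q ε0 p.1 p.2.1 p.2.2) with hs
  have h1 := sm4_union s (fun p (τ : E' n → Tri n) => ∀ i, ¬ YY p.1 p.2.1 p.2.2 (τ i))
    (fun τ : E' n → Tri n => ∃ (H : Finset (Fin n)) (lab : Fin n → Fin n → ZMod q)
      (F : Finset (E n)), HeavyCfg q ε0 H lab F ∧ ∀ i, ¬ YY H lab F (τ i)) (by
    rintro τ ⟨H, lab, F, hc, hav⟩
    set lab' : Fin n → Fin n → ZMod q := fun v x => if v ∈ H ∧ x ∉ H then lab v x else 0
      with hlab'
    have hagree : ∀ v ∈ H, ∀ x ∉ H, lab v x = lab' v x := by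
      intro v hv x hx
      simp [hlab', hv, hx]
    refine ⟨(H, lab', F), ?_, ?_⟩
    · rw [hs, Finset.mem_filter]
      refine ⟨Finset.mem_univ _, hc.1, ?_, sm3_cfg_congr q ε0 H lab lab' hagree F hc⟩
      simp only [sm3_L, Fintype.mem_piFinset]
      intro v
      by_cases hv : v ∈ H
      · simp only [hv, if_true, sm3_G, Fintype.mem_piFinset]
        intro x
        by_cases hx : x ∈ H
        · simp [hx, hlab']
        · simp [hx]
      · simp only [hv, if_false, Finset.mem_singleton]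
        ext x
        simp [hlab', hv]
    · intro i hY
      exact hav i ((sm3_YY_congr H lab lab' hagree F (τ i)).2 hY))
  refine h1.trans ?_
  set A := Real.exp (-(n / 100)) * Real.exp (22 * ε0 * n / k') with hA
  set c := A * (((n : ℝ) + 1) ^ q * (1 + q * k') ^ n) with hcdef
  have hA0 : 0 ≤ A := by positivity
  have h2 : ∑ p ∈ s, mass (fun τ : E' n → Tri n => ∀ i, ¬ YY p.1 p.2.1 p.2.2 (τ i)) ≤
      ∑ H : Finset (Fin n), (if H.Nonempty then 20 * Z n * c ^ H.card else 0) := by
    rw [hs, Finset.sum_filter, Fintype.sum_prod_type]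
    apply Finset.sum_le_sum
    intro H _
    by_cases hH : H.Nonempty
    swap
    · simp [hH]
    simp only [hH, true_and, if_true]
    rw [Fintype.sum_prod_type]
    have h3 : ∀ lab : Fin n → Fin n → ZMod q, ∑ F : Finset (E n),
        (if lab ∈ sm3_L q H ∧ HeavyCfg q ε0 H lab F then
          mass (fun τ : E' n → Tri n => ∀ i, ¬ YY H lab F (τ i)) else 0) ≤
        (if lab ∈ sm3_L q H then 20 * Z n * ∏ v ∈ H, (A * sm3_w H k' (lab v)) else 0) := by
      intro lab
      by_cases hl : lab ∈ sm3_L q H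
      · simp only [hl, true_and, if_true]
        exact sm3_F n q hn ε0 k' h0 h0' hk H lab
      · simp [hl]
    refine (Finset.sum_le_sum fun lab _ => h3 lab).trans ?_
    rw [Finset.sum_ite_mem, Finset.univ_inter, ← Finset.mul_sum]
    exact mul_le_mul_of_nonneg_left (sm3_L_sum hn1 q H k' hk A hA0) (by positivity)
  refine h2.trans (le_of_eq ?_)
  have h4 : ∑ H : Finset (Fin n), c ^ H.card = (1 + c) ^ n := by
    have := Finset.sum_pow_mul_eq_add_pow c 1 (Finset.univ : Finset (Fin n))
    simp only [one_pow, mul_one, Finset.powerset_univ, Finset.card_univ, Fintype.card_fin]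
      at this
    rw [this, add_comm]
  have h5 : ∑ H : Finset (Fin n), (if H.Nonempty then 20 * Z n * c ^ H.card else 0) =
      ∑ H : Finset (Fin n), (20 * Z n * c ^ H.card - if H = ∅ then 20 * Z n else 0) := by
    refine Finset.sum_congr rfl fun H _ => ?_
    by_cases hH : H = ∅
    · subst hH
      simp
    · rw [if_pos (Finset.nonempty_iff_ne_empty.2 hH), if_neg hH, sub_zero]
  rw [h5, Finset.sum_sub_distrib, ← Finset.mul_sum, h4]
  simp
  ring

/-- the asymptotics -/
theorem sm3_limit (q : ℕ) : Tendsto (fun n : ℕ =>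
    (n : ℝ) * ((n : ℝ) + 1) ^ q * Real.exp (-(n / 125))) atTop (𝓝 0) := by
  have h1 := (Real.tendsto_pow_mul_exp_neg_atTop_nhds_zero (q + 1)).comp
    ((tendsto_natCast_atTop_atTop (R := ℝ)).atTop_div_const (show (0 : ℝ) < 125 by norm_num))
  have h2 := h1.const_mul ((250 : ℝ) ^ (q + 1))
  rw [mul_zero] at h2
  refine squeeze_zero' (Eventually.of_forall fun n => by positivity) ?_ h2
  filter_upwards [eventually_ge_atTop 1] with n hn
  have hn0 : (1 : ℝ) ≤ n := by exact_mod_cast hn
  simp only [Function.comp]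
  rw [← mul_assoc, ← mul_pow]
  have e1 : (250 : ℝ) * ((n : ℝ) / 125) = 2 * n := by ring
  rw [e1]
  have e2 : (n : ℝ) * ((n : ℝ) + 1) ^ q ≤ (2 * n) ^ (q + 1) := by
    rw [pow_succ, mul_comm]
    gcongr <;> linarith
  gcongr

/-- BLOCK SM3 -/
theorem heavy_small_pr (q : ℕ) [NeZero q] : ∃ ε0 : ℝ, 0 < ε0 ∧ ∀ ε : ℝ, 0 < ε → ∃ N : ℕ,
    ∀ n : ℕ, N ≤ n →
    mass (fun τ : E' n → Tri n => ∃ (H : Finset (Fin n)) (lab : Fin n → Fin n → ZMod q)
      (F : Finset (E n)), HeavyCfg q ε0 H lab F ∧ ∀ i, ¬ YY H lab F (τ i)) ≤ ε * Z n := by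
  have hq : (1 : ℝ) ≤ q := by exact_mod_cast NeZero.one_le
  set k' : ℝ := 1 / (1000 * q) with hk'
  have hk : 0 < k' := by positivity
  set ε0 : ℝ := k' / 22000 with hε0
  have h0 : 0 < ε0 := by positivity
  have h0' : ε0 ≤ 1 / 20000 := by
    have : k' ≤ 1 := by
      rw [hk', div_le_one (by positivity)]
      linarith
    rw [hε0]
    linarith
  refine ⟨ε0, h0, fun ε hε => ?_⟩
  have hlim := sm3_limit q
  have hev : ∀ᶠ n : ℕ in atTop, (n : ℝ) * ((n : ℝ) + 1) ^ q * Real.exp (-(n / 125)) <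
      min 1 (ε / 40) := (tendsto_order.1 hlim).2 _ (by positivity)
  obtain ⟨N, hN⟩ := (hev.and (eventually_ge_atTop 10000)).exists_forall_of_atTop
  refine ⟨N, fun n hn => ?_⟩
  obtain ⟨h1, h2⟩ := hN n hn
  have hn1 : 1 ≤ n := by omega
  have hn0 : (0 : ℝ) < n := by exact_mod_cast hn1
  have hZ := sm4_Z_nonneg n
  refine (sm3_n n q h2 ε0 k' h0 h0' hk).trans ?_
  set c := (Real.exp (-(n / 100)) * Real.exp (22 * ε0 * n / k')) *
        (((n : ℝ) + 1) ^ q * (1 + q * k') ^ n) with hc
  have hc0 : 0 ≤ c := by positivity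
  have hc1 : c ≤ ((n : ℝ) + 1) ^ q * Real.exp (-(n / 125)) := by
    have e1 : 22 * ε0 * n / k' = n / 1000 := by
      rw [hε0]; field_simp; norm_num
    have e2 : (1 + q * k') ^ n ≤ Real.exp (n / 1000) := by
      have : (q : ℝ) * k' = 1 / 1000 := by rw [hk']; field_simp
      rw [this]
      calc (1 + 1 / 1000 : ℝ) ^ n ≤ (Real.exp (1 / 1000)) ^ n := by
            gcongr
            have := Real.add_one_le_exp (1 / 1000 : ℝ)
            linarith
        _ = Real.exp (n / 1000) := by rw [← Real.exp_nat_mul]; congr 1; ring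
    rw [hc, e1]
    calc Real.exp (-(n / 100)) * Real.exp (n / 1000) * (((n : ℝ) + 1) ^ q * (1 + q * k') ^ n) ≤
        Real.exp (-(n / 100)) * Real.exp (n / 1000) *
          (((n : ℝ) + 1) ^ q * Real.exp (n / 1000)) := by gcongr
      _ = ((n : ℝ) + 1) ^ q *
          (Real.exp (-(n / 100)) * Real.exp (n / 1000) * Real.exp (n / 1000)) := by ring
      _ = _ := by
          rw [← Real.exp_add, ← Real.exp_add]
          congr 2
          ring
  have hnc : n * c < min 1 (ε / 40) := by
    refine lt_of_le_of_lt ?_ h1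
    rw [mul_assoc]
    gcongr
  have hnc1 : n * c ≤ 1 := (hnc.trans_le (min_le_left _ _)).le
  have hnc2 : n * c ≤ ε / 40 := (hnc.trans_le (min_le_right _ _)).le
  have h3 : (1 + c) ^ n ≤ 1 + 2 * (n * c) := by
    calc (1 + c) ^ n ≤ (Real.exp c) ^ n := by
          gcongr
          have := Real.add_one_le_exp c
          linarith
      _ = Real.exp (n * c) := by rw [← Real.exp_nat_mul]
      _ ≤ 1 + 2 * (n * c) := by
          have hnn : 0 ≤ n * c := by positivity
          have := Real.abs_exp_sub_one_le (x := n * c) (by rw [abs_of_nonneg hnn]; exact hnc1)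
          rw [abs_of_nonneg hnn] at this
          have := le_abs_self (Real.exp (n * c) - 1)
          linarith
  calc 20 * Z n * ((1 + c) ^ n - 1) ≤ 20 * Z n * (2 * (ε / 40)) := by
        gcongr
        linarith
    _ = ε * Z n := by ring

end Pool.Agent.HT
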